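import Pool.Agent.H964R5.Net

/-!
# A subexponential deterministic identity test for tree tensor networks of small bond dimension

A network of bond dimension `k` computes a vector of `k` polynomials: it starts from constant
vectors, multiplies vectors by `k × k` matrices of polynomials in at most `c` variables (layers)
and applies bilinear maps (and at most `h` arbitrary polynomial maps) to the vectors computed by
two networks. For example a branching program of width `k` with `s` layers, each of which reads one
variable, is a network with `c = 1` and `s` layers; there is no restriction on the order of the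
variables and on the number of layers which read a variable. An arithmetic formula with `s`
occurrences of variables is a network of bond dimension `2`.

For every `r ≥ 1` an explicit set of at most `(ℓ (n+1) (d+1)) ^ (ℓ + 4 (s/r) + 1)` integer points,
`ℓ = 2 (3 k² + c + 1) (r + h)`, detects every polynomial of degree at most `d` which divides a
nonzero polynomial in the entries of the vector computed by a network with `n` variables and `s`
pairs of a layer and a variable of the layer. For `c = O(k²)`, `h = O(√s / k)` and `r = ⌈√s / k⌉` this is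
`(s n d) ^ (O(k √s + k²))`; for bounded `k` it is `2 ^ (O(√s log (s n d)))`.

The proof is the method of `SubexponentialTest` (library `Pool.Agent.H532R2.DT`); new is the count
of parameters `Net.hasPar`: with respect to a block of variables which occurs `R` times a network
has at most `(3 k² + c) (R + h) + k` parameters, linearly many in `R`.
-/

set_option autoImplicit false

namespace Pool.Agent.Results.MP_e2be99_lc.TensorNetworks

open MvPolynomial Pool.Agent.H964R5

/-- `brk` cuts the variables `x_0, …, x_(n-1)` into `t + 1` consecutive blocks: the variable `x_i`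
is in the block whose number is the number of the break points which are at most `i`. -/
def block {n t : ℕ} (brk : Fin t → Fin (n + 1)) (i : Fin n) : Fin (t + 1) :=
  ⟨(Finset.univ.filter fun l : Fin t => (brk l : ℕ) ≤ i).card, by
    refine Nat.lt_succ_of_le ((Finset.card_le_univ _).trans ?_)
    simp⟩

/-- The point given by positions `pos` with values `val`, by break points `brk`, and by seeds `y`
and `u`: the `i`-th coordinate is the value at the position `i` if `i` is one of the positions,
and `∑_k y_k u_b^((i+1)k)` otherwise, where `b` is the number of the block of `i`. -/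
def point {n t ℓ : ℕ} (pos : Fin t → Fin (n + 1)) (val : Fin t → ℕ)
    (brk : Fin t → Fin (n + 1)) (y : Fin ℓ → ℕ) (u : Fin (t + 1) → ℕ) : Fin n → ℤ :=
  fun i => if ∃ l, (pos l : ℕ) = i then ∑ l, (if (pos l : ℕ) = i then (val l : ℤ) else 0)
    else ∑ k : Fin ℓ, (y k : ℤ) * (u (block brk i) : ℤ) ^ (((i : ℕ) + 1) * (k : ℕ))

/-- All points with values and seeds `y` in `{0, …, d}` and seeds `u` in `{0, …, ℓ n d}`. -/
def points (n d t ℓ : ℕ) : Finset (Fin n → ℤ) :=
  (Finset.univ : Finset ((Fin t → Fin (n + 1)) × (Fin t → Fin (d + 1)) ×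
      (Fin t → Fin (n + 1)) × (Fin ℓ → Fin (d + 1)) ×
      (Fin (t + 1) → Fin (ℓ * n * d + 1)))).image
    fun q => point q.1 (fun l => (q.2.1 l : ℕ)) q.2.2.1 (fun k => (q.2.2.2.1 k : ℕ))
      (fun b => (q.2.2.2.2 b : ℕ))

theorem points_card (n d t ℓ : ℕ) (hℓ : 1 ≤ ℓ) :
    (points n d t ℓ).card ≤ (ℓ * (n + 1) * (d + 1)) ^ (ℓ + 4 * t + 1) := by
  unfold points
  refine Finset.card_image_le.trans ?_
  rw [Finset.card_univ]
  simp only [Fintype.card_prod, Fintype.card_pi, Fintype.card_fin, Finset.prod_const,
    Finset.card_univ]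
  set B := ℓ * (n + 1) * (d + 1) with hB
  have h1 : n + 1 ≤ B := by
    calc n + 1 = 1 * (n + 1) * 1 := by ring
      _ ≤ ℓ * (n + 1) * (d + 1) := by gcongr; omega
  have h2 : d + 1 ≤ B := by
    calc d + 1 = 1 * 1 * (d + 1) := by ring
      _ ≤ ℓ * (n + 1) * (d + 1) := by gcongr; omega
  have h3 : ℓ * n * d + 1 ≤ B := by
    have : ℓ * (n + 1) * (d + 1) = ℓ * n * d + ℓ * n + ℓ * d + ℓ := by ring
    omega
  calc (n + 1) ^ t * ((d + 1) ^ t * ((n + 1) ^ t * ((d + 1) ^ ℓ * (ℓ * n * d + 1) ^ (t + 1))))
      ≤ B ^ t * (B ^ t * (B ^ t * (B ^ ℓ * B ^ (t + 1)))) := by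
        gcongr
    _ = B ^ (ℓ + 4 * t + 1) := by
        rw [← pow_add, ← pow_add, ← pow_add, ← pow_add]
        congr 1
        ring

theorem points_bound (n d t ℓ : ℕ) (p : Fin n → ℤ) (hp : p ∈ points n d t ℓ) (i : Fin n) :
    |p i| ≤ (((ℓ + t) * d * (ℓ * n * d + 1) ^ (ℓ * n) : ℕ) : ℤ) := by
  unfold points at hp
  rw [Finset.mem_image] at hp
  obtain ⟨⟨pos, val, brk, y, u⟩, _, rfl⟩ := hp
  simp only [point]
  split_ifs with hex
  · calc |∑ l, (if (pos l : ℕ) = i then ((val l : ℕ) : ℤ) else 0)|
        ≤ ∑ l, |(if (pos l : ℕ) = i then ((val l : ℕ) : ℤ) else 0)| :=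
          Finset.abs_sum_le_sum_abs _ _
      _ ≤ ∑ l : Fin t, (d : ℤ) := by
          apply Finset.sum_le_sum
          intro l _
          split_ifs
          · rw [abs_of_nonneg (by positivity)]
            have := (val l).isLt
            omega
          · simp
      _ = ((t * d * 1 : ℕ) : ℤ) := by simp
      _ ≤ _ := by
          apply Int.ofNat_le.2
          gcongr
          · exact Nat.le_add_left _ _
          · exact Nat.one_le_pow _ _ (by omega)
  · calc |∑ k, ((y k : ℕ) : ℤ) * ((u (block brk i) : ℕ) : ℤ) ^ (((i : ℕ) + 1) * (k : ℕ))|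
        ≤ ∑ k, |((y k : ℕ) : ℤ) * ((u (block brk i) : ℕ) : ℤ) ^ (((i : ℕ) + 1) * (k : ℕ))| :=
          Finset.abs_sum_le_sum_abs _ _
      _ ≤ ∑ k : Fin ℓ, ((d * (ℓ * n * d + 1) ^ (ℓ * n) : ℕ) : ℤ) := by
          apply Finset.sum_le_sum
          intro k _
          rw [abs_of_nonneg (by positivity)]
          have h1 := (y k).isLt
          have h2 := (u (block brk i)).isLt
          have h3 : ((i : ℕ) + 1) * (k : ℕ) ≤ ℓ * n := by
            rw [mul_comm ℓ n]
            exact Nat.mul_le_mul i.isLt k.isLt.le
          have h4 : (y k : ℕ) * (u (block brk i) : ℕ) ^ (((i : ℕ) + 1) * (k : ℕ)) ≤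
              d * (ℓ * n * d + 1) ^ (ℓ * n) := by
            calc (y k : ℕ) * (u (block brk i) : ℕ) ^ (((i : ℕ) + 1) * (k : ℕ))
                ≤ d * (ℓ * n * d + 1) ^ (((i : ℕ) + 1) * (k : ℕ)) := by
                  gcongr
                  omega
              _ ≤ _ := by
                  gcongr
                  omega
          exact_mod_cast h4
      _ = ((ℓ * (d * (ℓ * n * d + 1) ^ (ℓ * n)) : ℕ) : ℤ) := by
          rw [Finset.sum_const, Finset.card_univ, Fintype.card_fin, nsmul_eq_mul]
          push_cast
          ring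
      _ ≤ _ := by
          apply Int.ofNat_le.2
          rw [← mul_assoc]
          gcongr
          exact Nat.le_add_right _ _

/-- **Subexponential deterministic identity test for networks.** The explicit set
`points n d (s / r) ℓ`, `ℓ = len k c h r = 2 (3 k² + c + 1) (r + h)`, detects every polynomial `f`
of degree at most `d` which divides a nonzero polynomial in the entries of the vector computed by a
network of bond dimension `k` with layers in at most `c` variables, with `size` at most `s` and
with at most `h` polynomial gates, over any field of characteristic zero. -/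
theorem result {F : Type*} [Field F] [CharZero F] (n k c s h d r : ℕ) (hr : 1 ≤ r) :
    (points n d (s / r) (len k c h r)).card ≤
      (len k c h r * (n + 1) * (d + 1)) ^ (len k c h r + 4 * (s / r) + 1) ∧
    (∀ p ∈ points n d (s / r) (len k c h r), ∀ i, |p i| ≤
      (((len k c h r + s / r) * d *
        (len k c h r * n * d + 1) ^ (len k c h r * n) : ℕ) : ℤ)) ∧
    ∀ (N : Net F n k c) (P : MvPolynomial (Fin k) F) (f : MvPolynomial (Fin n) F),
      N.size ≤ s → N.gates ≤ h → aeval N.val P ≠ 0 → f ∣ aeval N.val P → f.totalDegree ≤ d →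
      ∃ p ∈ points n d (s / r) (len k c h r), MvPolynomial.eval (fun i => (p i : F)) f ≠ 0 := by
  classical
  have hℓ1 : 1 ≤ len k c h r := by
    unfold len
    exact Nat.one_le_iff_ne_zero.2 (Nat.mul_ne_zero (by omega) (by omega))
  refine ⟨points_card n d _ _ hℓ1, points_bound n d _ _, ?_⟩
  intro N P f hs hh hne hf hd
  by_contra hall
  push Not at hall
  obtain ⟨H, bl, hH, hbl, v, y, u, hv, hy, hu, hev⟩ := net_seeds N P hf s h d r hs hh hr hd hne
  obtain ⟨β, hβ⟩ := Pool.Agent.H530R2.exists_breaks bl hbl
  obtain ⟨pos, hpos1, hpos2⟩ := Pool.Agent.H530R2.exists_slots H hH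
  apply hev
  have hcomm : n * len k c h r * d = len k c h r * n * d := by ring
  have hmem : point pos (fun l => if h : (pos l : ℕ) < n then v ⟨pos l, h⟩ else 0) β y u ∈
      points n d (s / r) (len k c h r) := by
    unfold points
    rw [Finset.mem_image]
    refine ⟨⟨pos, fun l => ⟨if h : (pos l : ℕ) < n then v ⟨pos l, h⟩ else 0, ?_⟩, β,
      fun k => ⟨y k, Nat.lt_succ_of_le (hy k)⟩,
      fun c => ⟨u c, Nat.lt_succ_of_le (by rw [← hcomm]; exact hu c)⟩⟩, Finset.mem_univ _, rfl⟩
    split_ifs
    · exact Nat.lt_succ_of_le (hv _)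
    · omega
  rw [← hall _ hmem]
  congr 2
  funext i
  have hblk : block β i = bl i := Fin.ext (hβ i)
  simp only [point]
  by_cases hi : i ∈ H
  · obtain ⟨l, hl⟩ := (hpos1 i).2 hi
    rw [if_pos hi, if_pos ⟨l, hl⟩, Finset.sum_eq_single l]
    · rw [if_pos hl]
      have h1 : (pos l : ℕ) < n := by rw [hl]; exact i.isLt
      have h2 : (⟨pos l, h1⟩ : Fin n) = i := Fin.ext hl
      rw [dif_pos h1, h2]
      simp
    · intro l' _ hne'
      rw [if_neg]
      intro h
      exact hne' (hpos2 i l' l h hl)
    · simp
  · rw [if_neg hi, if_neg (fun h => hi ((hpos1 i).1 h)), hblk]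
    push_cast
    rfl

end Pool.Agent.Results.MP_e2be99_lc.TensorNetworks
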