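import Mathlib

set_option autoImplicit false

namespace Pool.Agent.Results.MP_e2be99_lc.FewEdgeDirections

open Finset

/-- The value of the linear functional with coefficients `u` at the exponent vector `a`. -/
def L {n : ℕ} (u : Fin n → ℝ) (a : Fin n →₀ ℕ) : ℝ := ∑ i, u i * (a i : ℝ)

/-- The points `a` and `b` of the finite set `S` lie on a common edge (face of dimension one) of
the convex hull of `S`: some linear functional attains its minimum over `S` at `a` and `b` and,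
apart from them, only at points of the line through `a` and `b`. -/
def IsEdge {n : ℕ} (S : Finset (Fin n →₀ ℕ)) (a b : Fin n →₀ ℕ) : Prop :=
  a ∈ S ∧ b ∈ S ∧ a ≠ b ∧ ∃ u : Fin n → ℝ,
    (∀ c ∈ S, L u a ≤ L u c) ∧ L u b = L u a ∧
    ∀ c ∈ S, L u c = L u a → ∃ t : ℝ, ∀ i, (c i : ℝ) - a i = t * ((b i : ℝ) - a i)

/-- Every edge of the convex hull of `S` is parallel to a member of `V`. -/
def Covers {n : ℕ} (V : Finset (Fin n → ℤ)) (S : Finset (Fin n →₀ ℕ)) : Prop :=
  ∀ a b, IsEdge S a b → ∃ v ∈ V, ∃ t : ℝ, ∀ i, (b i : ℝ) - a i = t * (v i : ℝ)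

lemma perturb {α : Type*} (S : Finset α) (u g : α → ℝ) :
    ∃ ε : ℝ, 0 < ε ∧ ∀ x ∈ S, ∀ y ∈ S, u y < u x → u y + ε * g y < u x + ε * g x := by
  have h : ∀ᶠ ε in nhdsWithin (0 : ℝ) (Set.Ioi 0),
      ∀ x ∈ S, ∀ y ∈ S, u y < u x → u y + ε * g y < u x + ε * g x := by
    rw [Filter.eventually_all_finset]
    intro x hx
    rw [Filter.eventually_all_finset]
    intro y hy
    by_cases hxy : u y < u x
    · have hc : Continuous (fun ε : ℝ => (u x + ε * g x) - (u y + ε * g y)) := by fun_prop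
      have h2 := hc.tendsto 0
      simp only [zero_mul, add_zero] at h2
      have h3 := (h2.mono_left (nhdsWithin_le_nhds (s := Set.Ioi (0 : ℝ)))).eventually
        (lt_mem_nhds (sub_pos.2 hxy))
      filter_upwards [h3] with ε hε _
      linarith
    · filter_upwards with ε h
      exact absurd h hxy
  obtain ⟨ε, h1, h2⟩ := (h.and self_mem_nhdsWithin).exists
  exact ⟨ε, h2, h1⟩

lemma L_add {n : ℕ} (u g : Fin n → ℝ) (ε : ℝ) (x : Fin n →₀ ℕ) :
    L (fun j => u j + ε * g j) x = L u x + ε * L g x := by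
  unfold L
  rw [Finset.mul_sum, ← Finset.sum_add_distrib]
  exact Finset.sum_congr rfl fun i _ => by ring

lemma exists_edge {n : ℕ} (S : Finset (Fin n →₀ ℕ)) (w : Fin n → ℝ) (a₀ b₀ : Fin n →₀ ℕ)
    (ha₀ : a₀ ∈ S) (hb₀ : b₀ ∈ S) (hne₀ : b₀ ≠ a₀) (hmin₀ : ∀ c ∈ S, L w a₀ ≤ L w c)
    (heq₀ : L w b₀ = L w a₀) : ∃ a b, IsEdge S a b ∧ L w b = L w a := by
  classical
  let G : (Fin n → ℝ) → Finset (Fin n →₀ ℕ) := fun u => S.filter (fun x => ∀ y ∈ S, L u x ≤ L u y)
  have hG : ∀ u x, x ∈ G u ↔ x ∈ S ∧ ∀ y ∈ S, L u x ≤ L u y := fun u x => by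
    simp only [G, Finset.mem_filter]
  have hex : ∃ k, ∃ u, G u ⊆ G w ∧ 2 ≤ (G u).card ∧ (G u).card = k := by
    refine ⟨_, w, subset_rfl, ?_, rfl⟩
    have h1 : a₀ ∈ G w := (hG _ _).2 ⟨ha₀, hmin₀⟩
    have h2 : b₀ ∈ G w := (hG _ _).2 ⟨hb₀, fun y hy => heq₀ ▸ hmin₀ y hy⟩
    exact Finset.one_lt_card.2 ⟨_, h1, _, h2, hne₀.symm⟩
  obtain ⟨u, hu1, hu2, hu3⟩ := Nat.find_spec hex
  have hmin : ∀ u', G u' ⊆ G w → 2 ≤ (G u').card → (G u).card ≤ (G u').card := by
    intro u' h1 h2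
    rw [hu3]
    exact Nat.find_min' hex ⟨u', h1, h2, rfl⟩
  have hne : (G u).Nonempty := Finset.card_pos.1 (by omega)
  obtain ⟨a, haG, hamax⟩ := Finset.exists_max_image (G u)
    (fun x => L (fun i => (x i : ℝ)) x) hne
  obtain ⟨b, hbG, hba⟩ := Finset.exists_mem_ne (by omega : 1 < (G u).card) a
  have haS := ((hG u a).1 haG).1
  have hbS := ((hG u b).1 hbG).1
  have hEq : ∀ (v : Fin n → ℝ) x y, x ∈ G v → y ∈ G v → L v x = L v y := fun v x y hx hy =>
    le_antisymm (((hG v x).1 hx).2 y ((hG v y).1 hy).1) (((hG v y).1 hy).2 x ((hG v x).1 hx).1)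
  refine ⟨a, b, ⟨haS, hbS, hba.symm, u, ((hG u a).1 haG).2, hEq u b a hbG haG, ?_⟩,
    hEq w b a (hu1 hbG) (hu1 haG)⟩
  intro c hcS hcu
  by_contra hcon
  push Not at hcon
  have hcG : c ∈ G u := (hG u c).2 ⟨hcS, fun y hy => hcu ▸ ((hG u a).1 haG).2 y hy⟩
  set av : Fin n → ℝ := fun i => (a i : ℝ) with hav
  have hpos : ∀ x ∈ G u, x ≠ a → 0 < L av a - L av x := by
    intro x hx hxa
    have h1 : L (fun i => (x i : ℝ)) x ≤ L av a := hamax x hx
    have h2 : 0 < ∑ i, ((a i : ℝ) - x i) ^ 2 := by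
      obtain ⟨i, hi⟩ : ∃ i, x i ≠ a i := by
        by_contra h
        push Not at h
        exact hxa (Finsupp.ext h)
      refine Finset.sum_pos' (fun i _ => sq_nonneg _) ⟨i, Finset.mem_univ i, ?_⟩
      have : (a i : ℝ) - x i ≠ 0 := sub_ne_zero.2 (by exact_mod_cast hi.symm)
      positivity
    have h3 : ∑ i, ((a i : ℝ) - x i) ^ 2 = L av a - 2 * L av x + L (fun i => (x i : ℝ)) x := by
      unfold L
      rw [Finset.mul_sum, ← Finset.sum_sub_distrib, ← Finset.sum_add_distrib]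
      exact Finset.sum_congr rfl fun i _ => by rw [hav]; ring
    linarith
  have hca : c ≠ a := by
    intro h
    obtain ⟨i, hi⟩ := hcon 0
    apply hi
    rw [h]; simp
  have hHb := hpos b hbG hba
  have hHc := hpos c hcG hca
  obtain ⟨i, hi⟩ := hcon ((L av a - L av c) / (L av a - L av b))
  let r : (Fin n →₀ ℕ) → ℝ := fun x => ((x i : ℝ) - a i) / (L av a - L av x)
  have hrbc : r b ≠ r c := by
    intro h
    apply hi
    simp only [r] at h
    rw [div_eq_div_iff hHb.ne' hHc.ne'] at h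
    field_simp
    linarith
  have hbT : b ∈ (G u).erase a := Finset.mem_erase.2 ⟨hba, hbG⟩
  obtain ⟨bs, hbs, hbsmin⟩ := Finset.exists_min_image ((G u).erase a) r ⟨b, hbT⟩
  set ts : ℝ := r bs with hts
  let gw : Fin n → ℝ := fun j => (if j = i then 1 else 0) + ts * av j
  have hgw : ∀ x, L gw x = (x i : ℝ) + ts * L av x := by
    intro x
    rw [L_add]
    congr 1
    unfold L
    simp
  have hdiff : ∀ x ∈ G u, x ≠ a → L gw x - L gw a = (L av a - L av x) * (r x - ts) := by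
    intro x hx hxa
    have h := (hpos x hx hxa).ne'
    rw [hgw, hgw]
    simp only [r]
    field_simp
    ring
  obtain ⟨ε, hε, hpert⟩ := perturb S (L u) (L gw)
  set u' : Fin n → ℝ := fun j => u j + ε * gw j with hu'
  have hLu' : ∀ x, L u' x = L u x + ε * L gw x := fun x => L_add u gw ε x
  have hsub : G u' ⊆ G u := by
    intro x hx
    have hx' := (hG u' x).1 hx
    refine (hG u x).2 ⟨hx'.1, fun y hy => ?_⟩
    by_contra h
    push Not at h
    have h1 := hpert x hx'.1 y hy h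
    have h2 := hx'.2 y hy
    rw [hLu', hLu'] at h2
    linarith
  have hge : ∀ x ∈ G u, L gw a ≤ L gw x := by
    intro x hx
    by_cases hxa : x = a
    · rw [hxa]
    · have h1 := hdiff x hx hxa
      have h2 := hbsmin x (Finset.mem_erase.2 ⟨hxa, hx⟩)
      have h3 := hpos x hx hxa
      have : 0 ≤ (L av a - L av x) * (r x - ts) := mul_nonneg h3.le (by linarith)
      linarith
  have hmemu' : ∀ x ∈ G u, L gw x = L gw a → x ∈ G u' := by
    intro x hx hxa
    have hxS := ((hG u x).1 hx).1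
    refine (hG u' x).2 ⟨hxS, fun y hy => ?_⟩
    rw [hLu', hLu']
    by_cases h : L u x < L u y
    · exact (hpert y hy x hxS h).le
    · have h1 : y ∈ G u := (hG u y).2 ⟨hy, fun z hz =>
        (not_lt.1 h).trans (((hG u x).1 hx).2 z hz)⟩
      have h2 := hEq u x y hx h1
      have h3 := hge y h1
      rw [hxa, h2]
      have := mul_le_mul_of_nonneg_left h3 hε.le
      linarith
  have haG' : a ∈ G u' := hmemu' a haG rfl
  have hbsG : bs ∈ G u := (Finset.mem_erase.1 hbs).2
  have hbsa : bs ≠ a := (Finset.mem_erase.1 hbs).1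
  have hbsG' : bs ∈ G u' := by
    refine hmemu' bs hbsG ?_
    have h1 := hdiff bs hbsG hbsa
    rw [hts, sub_self, mul_zero] at h1
    linarith
  have hcard : 2 ≤ (G u').card := Finset.one_lt_card.2 ⟨_, haG', _, hbsG', hbsa.symm⟩
  have heq : G u' = G u := Finset.eq_of_subset_of_card_le hsub (hmin u' (hsub.trans hu1) hcard)
  have hfin : ∀ x ∈ G u, x ≠ a → r x = ts := by
    intro x hx hxa
    have h1 := hEq u' x a (heq ▸ hx) haG'
    rw [hLu', hLu', hEq u x a hx haG] at h1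
    have h2 : L gw x = L gw a := by
      have : ε * (L gw x - L gw a) = 0 := by linarith
      rcases mul_eq_zero.1 this with h | h
      · exact absurd h hε.ne'
      · linarith
    have h3 := hdiff x hx hxa
    rw [h2, sub_self] at h3
    rcases mul_eq_zero.1 h3.symm with h | h
    · exact absurd h (hpos x hx hxa).ne'
    · linarith
  exact hrbc ((hfin b hbG hba).trans (hfin c hcG hca).symm)

/-- The weight of an exponent vector. -/
def wt {n : ℕ} (w : Fin n → ℕ) (a : Fin n →₀ ℕ) : ℕ := ∑ i, w i * a i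

lemma L_cast {n : ℕ} (w : Fin n → ℕ) (a : Fin n →₀ ℕ) : L (fun i => (w i : ℝ)) a = (wt w a : ℝ) := by
  unfold L wt
  push_cast
  rfl

/-- The weight `w` has a unique minimizer on `S`. -/
def Uniq {n : ℕ} (w : Fin n → ℕ) (S : Finset (Fin n →₀ ℕ)) : Prop :=
  ∀ a ∈ S, ∀ b ∈ S, (∀ c ∈ S, wt w a ≤ wt w c) → wt w b = wt w a → b = a

lemma uniq_of_covers {n : ℕ} {S : Finset (Fin n →₀ ℕ)} {V : Finset (Fin n → ℤ)}
    (hV : Covers V S) (w : Fin n → ℕ) (hw : ∀ v ∈ V, v ≠ 0 → ∑ i, (w i : ℤ) * v i ≠ 0) :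
    Uniq w S := by
  intro a₀ ha₀ b₀ hb₀ hmin heq
  by_contra hne
  obtain ⟨a, b, hE, hab⟩ := exists_edge S (fun i => (w i : ℝ)) a₀ b₀ ha₀ hb₀ hne
    (fun c hc => by rw [L_cast, L_cast]; exact_mod_cast hmin c hc)
    (by rw [L_cast, L_cast, heq])
  obtain ⟨v, hv, t, ht⟩ := hV a b hE
  have hne' := hE.2.2.1
  obtain ⟨i, hi⟩ : ∃ i, b i ≠ a i := by
    by_contra h
    push Not at h
    exact hne' (Finsupp.ext fun i => (h i).symm)
  have hbi : (b i : ℝ) - a i ≠ 0 := sub_ne_zero.2 (by exact_mod_cast hi)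
  have ht0 : t ≠ 0 := by
    intro h
    rw [ht i, h, zero_mul] at hbi
    exact hbi rfl
  have hv0 : v ≠ 0 := by
    intro h
    rw [ht i, h] at hbi
    simp at hbi
  have h1 : L (fun i => (w i : ℝ)) b - L (fun i => (w i : ℝ)) a = t * ∑ i, (w i : ℝ) * (v i : ℝ) := by
    unfold L
    rw [← Finset.sum_sub_distrib, Finset.mul_sum]
    refine Finset.sum_congr rfl fun j _ => ?_
    have := ht j
    calc (w j : ℝ) * (b j : ℝ) - (w j : ℝ) * (a j : ℝ) = (w j : ℝ) * ((b j : ℝ) - a j) := by ring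
      _ = t * ((w j : ℝ) * (v j : ℝ)) := by rw [this]; ring
  rw [hab, sub_self] at h1
  rcases mul_eq_zero.1 h1.symm with h | h
  · exact ht0 h
  · apply hw v hv hv0
    exact_mod_cast h

lemma exists_prim {n p : ℕ} (hp : p.Prime) : ∀ (N : ℕ) (v : Fin n → ℤ) (i₀ : Fin n),
    v i₀ ≠ 0 → (v i₀).natAbs ≤ N → ∃ (c : ℤ) (v' : Fin n → ℤ), (∀ i, v i = c * v' i) ∧
      ∃ i, ¬ (p : ℤ) ∣ v' i := by
  intro N
  induction N with
  | zero => intro v i₀ h0 h1; simp at h1; exact absurd h1 h0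
  | succ N ih =>
    intro v i₀ h0 h1
    by_cases h : ∃ i, ¬ (p : ℤ) ∣ v i
    · exact ⟨1, v, fun i => by ring, h⟩
    · push Not at h
      choose v1 hv1 using h
      have hp2 := hp.two_le
      have h2 : v1 i₀ ≠ 0 := by
        intro h3; apply h0; rw [hv1, h3, mul_zero]
      have h3 : (v1 i₀).natAbs ≤ N := by
        have h4 : (v i₀).natAbs = p * (v1 i₀).natAbs := by
          rw [hv1 i₀, Int.natAbs_mul, Int.natAbs_natCast]
        have h5 : 0 < (v1 i₀).natAbs := Int.natAbs_pos.2 h2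
        nlinarith
      obtain ⟨c, v', hc, hi⟩ := ih v1 i₀ h2 h3
      exact ⟨p * c, v', fun i => by rw [hv1 i, hc i]; ring, hi⟩

open Polynomial in
lemma exists_k {n p : ℕ} (hp : p.Prime) (V : Finset (Fin n → ℤ)) (hV : V.card * (n - 1) < p) :
    ∃ k < p, ∀ v ∈ V, v ≠ 0 → ∑ i : Fin n, ((k ^ (i : ℕ) % p : ℕ) : ℤ) * v i ≠ 0 := by
  classical
  have : Fact p.Prime := ⟨hp⟩
  have hprim : ∀ v : Fin n → ℤ, ∃ (c : ℤ) (v' : Fin n → ℤ), v ≠ 0 → ((∀ i, v i = c * v' i) ∧
      ∃ i, ¬ (p : ℤ) ∣ v' i) := by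
    intro v
    by_cases hv : v = 0
    · exact ⟨0, 0, fun h => absurd hv h⟩
    · obtain ⟨i₀, hi₀⟩ := Function.ne_iff.1 hv
      obtain ⟨c, v', h1, h2⟩ := exists_prim hp _ v i₀ hi₀ le_rfl
      exact ⟨c, v', fun _ => ⟨h1, h2⟩⟩
  choose c v' hcv using hprim
  let P : (Fin n → ℤ) → (ZMod p)[X] := fun v => ∑ i : Fin n, C ((v' v i : ℤ) : ZMod p) * X ^ (i : ℕ)
  have hdeg : ∀ v, (P v).natDegree ≤ n - 1 := by
    intro v
    refine natDegree_sum_le_of_forall_le _ _ fun i _ => ?_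
    exact (natDegree_C_mul_X_pow_le _ _).trans (by have := i.2; omega)
  have hcoeff : ∀ v (i : Fin n), (P v).coeff i = ((v' v i : ℤ) : ZMod p) := by
    intro v i
    simp only [P, finsetSum_coeff, coeff_C_mul, coeff_X_pow]
    rw [Finset.sum_eq_single i]
    · simp
    · intro j _ hj
      rw [if_neg (fun h => hj (Fin.ext h.symm)), mul_zero]
    · intro h; exact absurd (Finset.mem_univ i) h
  have hne : ∀ v, v ≠ 0 → P v ≠ 0 := by
    intro v hv h
    obtain ⟨i, hi⟩ := (hcv v hv).2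
    apply hi
    rw [← ZMod.intCast_zmod_eq_zero_iff_dvd, ← hcoeff, h, coeff_zero]
  let B : Finset (ZMod p) := V.biUnion fun v => (P v).roots.toFinset
  have hB : B.card < Fintype.card (ZMod p) := by
    rw [ZMod.card]
    refine lt_of_le_of_lt (Finset.card_biUnion_le.trans ?_) hV
    rw [← smul_eq_mul, ← Finset.sum_const]
    refine Finset.sum_le_sum fun v _ => ?_
    exact (Multiset.toFinset_card_le _).trans ((card_roots' _).trans (hdeg v))
  obtain ⟨κ, hκ⟩ : ∃ κ, κ ∉ B := by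
    by_contra h
    push Not at h
    have : B = Finset.univ := Finset.eq_univ_iff_forall.2 h
    rw [this, Finset.card_univ] at hB
    exact lt_irrefl _ hB
  refine ⟨κ.val, ZMod.val_lt κ, fun v hv hv0 hsum => ?_⟩
  apply hκ
  refine Finset.mem_biUnion.2 ⟨v, hv, ?_⟩
  rw [Multiset.mem_toFinset, mem_roots (hne v hv0), IsRoot.def, eval_finsetSum]
  have hc0 : c v ≠ 0 := by
    intro h
    apply hv0
    funext i
    rw [(hcv v hv0).1 i, h, zero_mul]; rfl
  have h1 : ∑ i : Fin n, ((κ.val ^ (i : ℕ) % p : ℕ) : ℤ) * v' v i = 0 := by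
    have h2 : c v * ∑ i : Fin n, ((κ.val ^ (i : ℕ) % p : ℕ) : ℤ) * v' v i = 0 := by
      rw [Finset.mul_sum, ← hsum]
      refine Finset.sum_congr rfl fun i _ => ?_
      rw [(hcv v hv0).1 i]; ring
    exact (mul_eq_zero.1 h2).resolve_left hc0
  have h3 := congrArg (Int.cast : ℤ → ZMod p) h1
  push_cast at h3
  rw [← h3]
  refine Finset.sum_congr rfl fun i _ => ?_
  simp [mul_comm]

section hit

variable {F : Type*} [Field F] {n : ℕ}

open MvPolynomial in
lemma phi_eq (w : Fin n → ℕ) (f : MvPolynomial (Fin n) F) :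
    aeval (fun i => (Polynomial.X : Polynomial F) ^ w i) f =
      ∑ m ∈ f.support, Polynomial.C (f.coeff m) * Polynomial.X ^ (wt w m) := by
  rw [aeval_def, eval₂_eq']
  refine Finset.sum_congr rfl fun m _ => ?_
  simp only [← pow_mul, Finset.prod_pow_eq_pow_sum, wt]
  rfl

open MvPolynomial in
lemma phi_ne_zero (w : Fin n → ℕ) (f : MvPolynomial (Fin n) F) (hf : f ≠ 0)
    (hu : Uniq w f.support) :
    aeval (fun i => (Polynomial.X : Polynomial F) ^ w i) f ≠ 0 := by
  obtain ⟨a, ha, hmin⟩ := Finset.exists_min_image f.support (wt w) (support_nonempty.2 hf)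
  intro h
  have h1 := congrArg (fun q => Polynomial.coeff q (wt w a)) (phi_eq w f)
  simp only [h, Polynomial.coeff_zero, Polynomial.finsetSum_coeff, Polynomial.coeff_C_mul,
    Polynomial.coeff_X_pow] at h1
  rw [Finset.sum_eq_single a] at h1
  · simp at h1
    exact (mem_support_iff.1 ha) h1.symm
  · intro b hb hba
    rw [if_neg, mul_zero]
    intro h2
    exact hba (hu a ha b hb hmin h2.symm)
  · intro h2; exact absurd ha h2

open MvPolynomial in
lemma phi_natDegree (w : Fin n → ℕ) (W : ℕ) (hW : ∀ i, w i ≤ W) (f : MvPolynomial (Fin n) F) :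
    (aeval (fun i => (Polynomial.X : Polynomial F) ^ w i) f).natDegree ≤ W * f.totalDegree := by
  rw [phi_eq]
  refine Polynomial.natDegree_sum_le_of_forall_le _ _ fun m hm => ?_
  refine (Polynomial.natDegree_C_mul_X_pow_le _ _).trans ?_
  have h1 := le_totalDegree hm
  rw [Finsupp.sum_fintype _ _ (fun _ => rfl)] at h1
  calc wt w m ≤ ∑ i, W * m i := Finset.sum_le_sum fun i _ => Nat.mul_le_mul_right _ (hW i)
    _ = W * ∑ i, m i := by rw [Finset.mul_sum]
    _ ≤ W * f.totalDegree := Nat.mul_le_mul_left _ h1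

open MvPolynomial in
lemma phi_eval (w : Fin n → ℕ) (f : MvPolynomial (Fin n) F) (t : F) :
    (aeval (fun i => (Polynomial.X : Polynomial F) ^ w i) f).eval t =
      eval (fun i => t ^ w i) f := by
  rw [phi_eq, Polynomial.eval_finsetSum, eval_eq']
  refine Finset.sum_congr rfl fun m _ => ?_
  simp only [Polynomial.eval_mul, Polynomial.eval_C, Polynomial.eval_pow, Polynomial.eval_X,
    ← pow_mul, Finset.prod_pow_eq_pow_sum, wt]

open MvPolynomial in
/-- One good weight vector hits all divisors of products. -/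
lemma hit [CharZero F] (w : Fin n → ℕ) (W D : ℕ) (hW : ∀ i, w i ≤ W)
    (A : Set (MvPolynomial (Fin n) F)) (hA : ∀ g ∈ A, g ≠ 0 ∧ Uniq w g.support)
    (g : MvPolynomial (Fin n) F) (hg : g ∈ Submonoid.closure A)
    (f : MvPolynomial (Fin n) F) (hfg : f ∣ g) (hf : f.totalDegree ≤ D) :
    ∃ t ∈ Finset.range (W * D + 1), eval (fun i => (t : F) ^ w i) f ≠ 0 := by
  have h1 : aeval (fun i => (Polynomial.X : Polynomial F) ^ w i) g ≠ 0 := by
    refine Submonoid.closure_induction (motive := fun x _ =>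
      aeval (fun i => (Polynomial.X : Polynomial F) ^ w i) x ≠ 0) ?_ ?_ ?_ hg
    · intro x hx
      exact phi_ne_zero w x (hA x hx).1 (hA x hx).2
    · simp
    · intro x y _ _ hx hy
      rw [map_mul]
      exact mul_ne_zero hx hy
  have h2 : aeval (fun i => (Polynomial.X : Polynomial F) ^ w i) f ≠ 0 := by
    obtain ⟨q, rfl⟩ := hfg
    rw [map_mul] at h1
    exact left_ne_zero_of_mul h1
  by_contra h
  push Not at h
  apply h2
  refine Polynomial.eq_zero_of_natDegree_lt_card_of_eval_eq_zero _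
    (f := fun i : Fin (W * D + 1) => ((i : ℕ) : F)) ?_ ?_ ?_
  · intro i j hij
    exact Fin.ext (Nat.cast_injective hij)
  · intro i
    rw [phi_eval]
    exact h i (Finset.mem_range.2 i.2)
  · rw [Fintype.card_fin]
    exact Nat.lt_succ_of_le ((phi_natDegree w W hW f).trans (Nat.mul_le_mul_left _ hf))

end hit

/-- The set `S` of exponent vectors is `M♮`-convex (exchange property of generalized
polymatroids): if `a i > b i` then `a - e_i`, `b + e_i` are in `S`, or `a - e_i + e_j`,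
`b + e_i - e_j` are in `S` for some `j` with `a j < b j`. -/
def MNatural {n : ℕ} (S : Finset (Fin n →₀ ℕ)) : Prop :=
  ∀ a ∈ S, ∀ b ∈ S, ∀ i, b i < a i →
    (∃ a' ∈ S, ∃ b' ∈ S, a' + Finsupp.single i 1 = a ∧ b' = b + Finsupp.single i 1) ∨
    ∃ j, a j < b j ∧ ∃ a' ∈ S, ∃ b' ∈ S, a' + Finsupp.single i 1 = a + Finsupp.single j 1 ∧
      b' + Finsupp.single j 1 = b + Finsupp.single i 1

lemma wt_add {n : ℕ} (w : Fin n → ℕ) (a b : Fin n →₀ ℕ) : wt w (a + b) = wt w a + wt w b := by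
  unfold wt
  rw [← Finset.sum_add_distrib]
  exact Finset.sum_congr rfl fun i _ => by rw [Finsupp.add_apply, mul_add]

lemma wt_single {n : ℕ} (w : Fin n → ℕ) (i : Fin n) : wt w (Finsupp.single i 1) = w i := by
  unfold wt
  rw [Finset.sum_eq_single i]
  · simp
  · intro j _ hj
    rw [Finsupp.single_eq_of_ne hj, mul_zero]
  · intro h; exact absurd (Finset.mem_univ i) h

lemma mnat_aux {n : ℕ} {S : Finset (Fin n →₀ ℕ)} (hS : MNatural S) (a b : Fin n →₀ ℕ)
    (ha : a ∈ S) (hb : b ∈ S) (hma : ∀ c ∈ S, wt (fun i : Fin n => (i : ℕ) + 1) a ≤ wt (fun i : Fin n => (i : ℕ) + 1) c)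
    (hmb : ∀ c ∈ S, wt (fun i : Fin n => (i : ℕ) + 1) b ≤ wt (fun i : Fin n => (i : ℕ) + 1) c) (i : Fin n) : ¬ b i < a i := by
  intro hi
  rcases hS a ha b hb i hi with ⟨a', ha', b', hb', h1, h2⟩ | ⟨j, hj, a', ha', b', hb', h1, h2⟩
  · have h3 := congrArg (wt (fun i : Fin n => (i : ℕ) + 1)) h1
    rw [wt_add, wt_single] at h3
    have h4 := hma a' ha'
    omega
  · have h3 := congrArg (wt (fun i : Fin n => (i : ℕ) + 1)) h1
    have h4 := congrArg (wt (fun i : Fin n => (i : ℕ) + 1)) h2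
    rw [wt_add, wt_single, wt_add, wt_single] at h3 h4
    have h5 := hma a' ha'
    have h6 := hmb b' hb'
    have h7 : i = j := Fin.ext (by omega)
    subst h7
    omega

lemma uniq_of_mnat {n : ℕ} {S : Finset (Fin n →₀ ℕ)} (hS : MNatural S) :
    Uniq (fun i : Fin n => (i : ℕ) + 1) S := by
  intro a ha b hb hmin heq
  have hmb : ∀ c ∈ S, wt (fun i : Fin n => (i : ℕ) + 1) b ≤ wt (fun i : Fin n => (i : ℕ) + 1) c := fun c hc => by
    rw [heq]; exact hmin c hc
  refine Finsupp.ext fun i => ?_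
  have h1 := mnat_aux hS a b ha hb hmin hmb i
  have h2 := mnat_aux hS b a hb ha hmb hmin i
  omega

/-- The vectors `e_i` and `e_i - e_j`, `i ≠ j`. -/
def dirs (n : ℕ) : Finset (Fin n → ℤ) :=
  (Finset.univ.image fun i : Fin n => Pi.single i (1 : ℤ)) ∪
    ((Finset.univ : Finset (Fin n)).offDiag.image fun q => Pi.single q.1 (1 : ℤ) - Pi.single q.2 1)

lemma uniq_of_dirs {n : ℕ} {S : Finset (Fin n →₀ ℕ)} (hS : Covers (dirs n) S) :
    Uniq (fun i : Fin n => (i : ℕ) + 1) S := by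
  refine uniq_of_covers hS _ fun v hv _ => ?_
  have hsum : ∀ i : Fin n, ∑ l : Fin n, (((l : ℕ) + 1 : ℕ) : ℤ) * (Pi.single i (1 : ℤ) : Fin n → ℤ) l
      = (i : ℕ) + 1 := by
    intro i
    rw [Finset.sum_eq_single i]
    · simp
    · intro j _ hj
      rw [Pi.single_eq_of_ne hj, mul_zero]
    · intro h; exact absurd (Finset.mem_univ i) h
  unfold dirs at hv
  rw [Finset.mem_union, Finset.mem_image, Finset.mem_image] at hv
  rcases hv with ⟨i, _, rfl⟩ | ⟨q, hq, rfl⟩
  · rw [hsum]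
    positivity
  · have h1 := (Finset.mem_offDiag.1 hq).2.2
    have h2 : ∑ l : Fin n, (((l : ℕ) + 1 : ℕ) : ℤ) *
        ((Pi.single q.1 (1 : ℤ) - Pi.single q.2 1 : Fin n → ℤ) l) =
        ((q.1 : ℕ) + 1 : ℤ) - ((q.2 : ℕ) + 1) := by
      rw [← hsum q.1, ← hsum q.2, ← Finset.sum_sub_distrib]
      exact Finset.sum_congr rfl fun l _ => by rw [Pi.sub_apply, mul_sub]
    rw [h2]
    intro h3
    apply h1
    exact Fin.ext (by omega)

/-- `a` is a vertex of the convex hull of `S`. -/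
def IsVertex {n : ℕ} (S : Finset (Fin n →₀ ℕ)) (a : Fin n →₀ ℕ) : Prop :=
  a ∈ S ∧ ∃ u : Fin n → ℝ, ∀ c ∈ S, c ≠ a → L u a < L u c

lemma endpoint {n : ℕ} {S : Finset (Fin n →₀ ℕ)} {a b : Fin n →₀ ℕ} (u d : Fin n → ℝ)
    (ha : a ∈ S) (hmin : ∀ c ∈ S, L u a ≤ L u c)
    (hline : ∀ c ∈ S, L u c = L u a → ∃ t : ℝ, ∀ i, (c i : ℝ) - a i = t * ((b i : ℝ) - a i))
    (hd : L d b ≠ L d a) :
    ∃ x, IsVertex S x ∧ L u x = L u a ∧ ∀ c ∈ S, L u c = L u a → L d x ≤ L d c := by
  classical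
  have hLd : ∀ (c : Fin n →₀ ℕ) (t : ℝ), (∀ i, (c i : ℝ) - a i = t * ((b i : ℝ) - a i)) →
      L d c - L d a = t * (L d b - L d a) := by
    intro c t ht
    unfold L
    rw [← Finset.sum_sub_distrib, ← Finset.sum_sub_distrib, Finset.mul_sum]
    refine Finset.sum_congr rfl fun i _ => ?_
    calc d i * (c i : ℝ) - d i * (a i : ℝ) = d i * ((c i : ℝ) - a i) := by ring
      _ = t * (d i * (b i : ℝ) - d i * (a i : ℝ)) := by rw [ht i]; ring
  obtain ⟨x, hx, hxmin⟩ := Finset.exists_min_image (S.filter fun c => L u c = L u a) (L d)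
    ⟨a, Finset.mem_filter.2 ⟨ha, rfl⟩⟩
  obtain ⟨hxS, hxu⟩ := Finset.mem_filter.1 hx
  obtain ⟨ε, hε, hpert⟩ := perturb S (L u) (L d)
  refine ⟨x, ⟨hxS, fun j => u j + ε * d j, fun c hc hcx => ?_⟩, hxu, fun c hc hcu =>
    hxmin c (Finset.mem_filter.2 ⟨hc, hcu⟩)⟩
  rw [L_add, L_add]
  by_cases h : L u x < L u c
  · exact hpert c hc x hxS h
  · have h1 : L u c = L u a := le_antisymm ((not_lt.1 h).trans hxu.le) (hmin c hc)
    have h2 := hxmin c (Finset.mem_filter.2 ⟨hc, h1⟩)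
    have h3 : L d x ≠ L d c := by
      intro h4
      obtain ⟨t, ht⟩ := hline c hc h1
      obtain ⟨t', ht'⟩ := hline x hxS hxu
      have h5 := hLd c t ht
      have h6 := hLd x t' ht'
      have h7 : t = t' := by
        have : (t - t') * (L d b - L d a) = 0 := by
          rw [sub_mul, ← h5, ← h6, h4]; ring
        rcases mul_eq_zero.1 this with h | h
        · linarith
        · exact absurd (by linarith) hd
      apply hcx
      refine Finsupp.ext fun i => ?_
      have h8 := ht i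
      have h9 := ht' i
      rw [h7, ← h9] at h8
      have : (c i : ℝ) = x i := by linarith
      exact_mod_cast this
    have h4 : L d x < L d c := lt_of_le_of_ne h2 h3
    rw [hxu, h1]
    have := mul_lt_mul_of_pos_left h4 hε
    linarith

lemma covers_of_vertices {n : ℕ} {S T : Finset (Fin n →₀ ℕ)} (hT : ∀ a, IsVertex S a → a ∈ T) :
    Covers (T.offDiag.image fun q i => (q.2 i : ℤ) - q.1 i) S := by
  classical
  intro a b hE
  obtain ⟨ha, hb, hne, u, hmin, heq, hline⟩ := hE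
  let d : Fin n → ℝ := fun i => (b i : ℝ) - a i
  have hpos : 0 < L d b - L d a := by
    have h1 : L d b - L d a = ∑ i, ((b i : ℝ) - a i) ^ 2 := by
      unfold L
      rw [← Finset.sum_sub_distrib]
      exact Finset.sum_congr rfl fun i _ => by simp only [d]; ring
    rw [h1]
    obtain ⟨i, hi⟩ : ∃ i, b i ≠ a i := by
      by_contra h
      push Not at h
      exact hne (Finsupp.ext fun i => (h i).symm)
    refine Finset.sum_pos' (fun i _ => sq_nonneg _) ⟨i, Finset.mem_univ i, ?_⟩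
    have : (b i : ℝ) - a i ≠ 0 := sub_ne_zero.2 (by exact_mod_cast hi)
    positivity
  obtain ⟨x, hx, hxu, hxmin⟩ := endpoint u d ha hmin hline (by linarith)
  obtain ⟨y, hy, hyu, hymin⟩ := endpoint u (fun i => - d i) ha hmin hline (by
    have h1 : ∀ c, L (fun i => - d i) c = - L d c := by
      intro c; unfold L; rw [← Finset.sum_neg_distrib]
      exact Finset.sum_congr rfl fun i _ => by ring
    rw [h1, h1]
    intro h
    linarith)
  have hneg : ∀ c, L (fun i => - d i) c = - L d c := by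
    intro c; unfold L; rw [← Finset.sum_neg_distrib]
    exact Finset.sum_congr rfl fun i _ => by ring
  have h1 := hxmin a ha rfl
  have h2 := hymin b hb heq
  rw [hneg, hneg] at h2
  have hlt : L d x < L d y := by linarith
  have hxy : x ≠ y := by intro h; rw [h] at hlt; exact lt_irrefl _ hlt
  obtain ⟨t, ht⟩ := hline x hx.1 hxu
  obtain ⟨t', ht'⟩ := hline y hy.1 hyu
  have htt : t' - t ≠ 0 := by
    intro h
    apply hxy
    refine Finsupp.ext fun i => ?_
    have h3 := ht i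
    have h4 := ht' i
    have h5 : t = t' := by linarith
    rw [h5, ← h4] at h3
    have : (x i : ℝ) = y i := by linarith
    exact_mod_cast this
  refine ⟨fun i => (y i : ℤ) - x i, Finset.mem_image.2 ⟨(x, y), Finset.mem_offDiag.2
    ⟨hT x hx, hT y hy, hxy⟩, rfl⟩, 1 / (t' - t), fun i => ?_⟩
  push_cast
  have h3 := ht i
  have h4 := ht' i
  have h5 : (y i : ℝ) - x i = (t' - t) * ((b i : ℝ) - a i) := by linarith
  rw [h5]
  field_simp

/-- The least prime number greater than `e * n`. -/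
noncomputable def q (n e : ℕ) : ℕ := by
  classical
  exact Nat.find (Nat.exists_infinite_primes (e * n + 1))

lemma q_spec (n e : ℕ) : e * n < q n e ∧ (q n e).Prime ∧ q n e ≤ 2 * (e * n + 1) := by
  classical
  have h1 := Nat.find_spec (Nat.exists_infinite_primes (e * n + 1))
  refine ⟨?_, ?_, ?_⟩
  · unfold q; convert Nat.lt_of_succ_le h1.1
  · unfold q; convert h1.2
  · obtain ⟨p, hp, h2, h3⟩ := Nat.exists_prime_lt_and_le_two_mul (e * n + 1) (by omega)
    refine le_trans ?_ h3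
    unfold q
    convert Nat.find_min' (Nat.exists_infinite_primes (e * n + 1)) ⟨h2.le, hp⟩

/-- The explicit hitting set: for the least prime `p > e n` the points
`(t^(k^0 mod p), t^(k^1 mod p), …, t^(k^(n-1) mod p))`, `0 ≤ k < p`, `0 ≤ t ≤ p D`. -/
noncomputable def points (n e D : ℕ) : Finset (Fin n → ℕ) := by
  classical
  exact (Finset.range (q n e) ×ˢ Finset.range (q n e * D + 1)).image
    fun z i => z.2 ^ (z.1 ^ (i : ℕ) % q n e)

/-- **Explicit hitting sets for polynomials whose Newton polytopes have few edge directions.** -/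
theorem result {F : Type*} [Field F] [CharZero F] (n : ℕ) :
    -- the size of the explicit set and of its points
    (∀ e D, (points n e D).card ≤ 2 * (e * n + 1) * (2 * (e * n + 1) * D + 1) ∧
      ∀ x ∈ points n e D, ∀ i, x i ≤ (2 * (e * n + 1) * D + 1) ^ (2 * (e * n + 1))) ∧
    -- it hits all divisors of degree at most `D` of products of polynomials whose Newton
    -- polytopes have together at most `e` edge directions
    (∀ (e D : ℕ) (V : Finset (Fin n → ℤ)), V.card ≤ e → ∀ A : Set (MvPolynomial (Fin n) F),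
      (∀ g ∈ A, g ≠ 0 ∧ Covers V g.support) → ∀ g ∈ Submonoid.closure A, ∀ f, f ∣ g →
        f.totalDegree ≤ D → ∃ x ∈ points n e D, MvPolynomial.eval (fun i => (x i : F)) f ≠ 0) ∧
    -- a polytope with `s` vertices has at most `s (s - 1)` edge directions
    (∀ (S T : Finset (Fin n →₀ ℕ)), (∀ a, IsVertex S a → a ∈ T) →
      ∃ V : Finset (Fin n → ℤ), V.card ≤ T.card * (T.card - 1) ∧ Covers V S) ∧
    -- the moment curve hits all divisors of products of polynomials with `M♮`-convex supports, or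
    -- whose Newton polytopes are generalized polymatroids
    (∀ (D : ℕ) (A : Set (MvPolynomial (Fin n) F)),
      (∀ g ∈ A, g ≠ 0 ∧ (MNatural g.support ∨ Covers (dirs n) g.support)) →
        ∀ g ∈ Submonoid.closure A, ∀ f, f ∣ g → f.totalDegree ≤ D →
          ∃ t ≤ n * D, MvPolynomial.eval (fun i : Fin n => (t : F) ^ ((i : ℕ) + 1)) f ≠ 0) := by
  classical
  refine ⟨fun e D => ?_, fun e D V hVe A hA g hg f hfg hf => ?_, fun S T hT => ?_,
    fun D A hA g hg f hfg hf => ?_⟩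
  · obtain ⟨h1, h2, h3⟩ := q_spec n e
    have h4 : q n e * D + 1 ≤ 2 * (e * n + 1) * D + 1 := by
      have := Nat.mul_le_mul_right D h3
      omega
    constructor
    · refine Finset.card_image_le.trans ?_
      rw [Finset.card_product, Finset.card_range, Finset.card_range]
      exact Nat.mul_le_mul h3 h4
    · intro x hx i
      obtain ⟨z, hz, rfl⟩ := Finset.mem_image.1 hx
      obtain ⟨hz1, hz2⟩ := Finset.mem_product.1 hz
      rw [Finset.mem_range] at hz1 hz2
      have h5 : z.1 ^ (i : ℕ) % q n e ≤ 2 * (e * n + 1) :=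
        (Nat.mod_lt _ h2.pos).le.trans h3
      have h6 : z.2 ≤ 2 * (e * n + 1) * D + 1 := by omega
      calc z.2 ^ (z.1 ^ (i : ℕ) % q n e)
          ≤ (2 * (e * n + 1) * D + 1) ^ (z.1 ^ (i : ℕ) % q n e) := Nat.pow_le_pow_left h6 _
        _ ≤ _ := Nat.pow_le_pow_right (by omega) h5
  · obtain ⟨h1, h2, h3⟩ := q_spec n e
    have h4 : V.card * (n - 1) < q n e := by
      refine lt_of_le_of_lt ?_ h1
      exact Nat.mul_le_mul hVe (Nat.sub_le _ _)
    obtain ⟨k, hk, hkV⟩ := exists_k h2 V h4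
    obtain ⟨t, ht, hne⟩ := hit (fun i : Fin n => k ^ (i : ℕ) % q n e) (q n e) D
      (fun i => (Nat.mod_lt _ h2.pos).le) A
      (fun g hg => ⟨(hA g hg).1, uniq_of_covers (hA g hg).2 _ hkV⟩) g hg f hfg hf
    refine ⟨fun i => t ^ (k ^ (i : ℕ) % q n e), Finset.mem_image.2 ⟨(k, t),
      Finset.mem_product.2 ⟨Finset.mem_range.2 hk, ht⟩, rfl⟩, ?_⟩
    push_cast
    exact hne
  · refine ⟨_, ?_, covers_of_vertices hT⟩
    refine Finset.card_image_le.trans ?_
    rw [Finset.offDiag_card, Nat.mul_sub, mul_one]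
  · obtain ⟨t, ht, hne⟩ := hit (fun i : Fin n => (i : ℕ) + 1) n D (fun i => i.2) A
      (fun g hg => ⟨(hA g hg).1, (hA g hg).2.elim uniq_of_mnat uniq_of_dirs⟩) g hg f hfg hf
    exact ⟨t, by have := Finset.mem_range.1 ht; omega, hne⟩

end Pool.Agent.Results.MP_e2be99_lc.FewEdgeDirections
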