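import Mathlib
import Pool.Agent.H669R3.FewNegB

/-!
# Hitting sets for polynomials whose coefficient signs follow a pattern with few exceptions

For a weight vector `u`, a leaf polynomial is a polynomial with exponents at most `D` whose
coefficient signs are a function of the weight of the monomial with at most `l` changes of sign,
with at most `k` exceptional monomials; there is no bound on the number of monomials.  (For `u = 0`
and `l = 0`: all but at most `k` coefficients have the same sign, for example the difference of the
polynomial of a monotone circuit of any size and a `k`-sparse polynomial.)  The class `Cls` is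
closed under products (the index `s` counts the leaves along products), powers, sums of arbitrarily
many products of even powers of members with polynomials positive at positive points, and so on.
An explicit set of polynomially many points hits every nonzero member: Descartes' rule bounds the
number of positive zeros along the curves `t ↦ (t ^ v i)`, and the weights `r ^ i % p` separate one
monomial from the exceptional ones.
-/

set_option autoImplicit false

namespace Pool.Agent.Results.MP_e2be99_lc.FewNegativeCoefficients

open Pool.Agent.H669R3.FewNeg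

/-- Let `K` be an ordered commutative ring (for instance `ℤ`, `ℚ` or `ℝ`).

(1) For a finite set `P` of primes `> s k n` such that every `0 < m ≤ D` is divisible by at most `c`
members of `P`, and `s k c < |P|`, the set `H u k l D s P` hits every nonzero polynomial of the
class of index `s`.  (2), (3) Its size and the size of its points, which are positive integer
points.  (4) A single prime `p ≤ 2 (D + s k n + 1)` suffices.  (5), (6) Differences of a polynomial
with nonnegative coefficients and a `k`-sparse polynomial, and sums of arbitrarily many even powers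
of members, belong to the class. -/
theorem result (K : Type*) [CommRing K] [LinearOrder K] [IsStrictOrderedRing K]
    (n k l D s : ℕ) (u : Fin n → ℕ) :
    (∀ (P : Finset ℕ) (c : ℕ), (∀ p ∈ P, p.Prime ∧ s * k * n < p) →
      (∀ m, 0 < m → m ≤ D → (P.filter (· ∣ m)).card ≤ c) → s * k * c < P.card →
      ∀ (b : Bool) (f : MvPolynomial (Fin n) K), Cls u k l D s b f → f ≠ 0 →
        ∃ x ∈ H u k l D s P, MvPolynomial.eval (fun i => ((x i : ℕ) : K)) f ≠ 0) ∧
    (∀ P : Finset ℕ, (H u k l D s P).card ≤ (∑ p ∈ P, p) * (s * (l + 2 * k) + 1)) ∧
    (∀ (P : Finset ℕ), ∀ x ∈ H u k l D s P, ∃ p ∈ P, ∀ i, 0 < x i ∧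
      x i ≤ (s * (l + 2 * k) + 1) ^ (p + (n * p * D + 1) * u i)) ∧
    (∃ p : ℕ, p.Prime ∧ D < p ∧ p ≤ 2 * (D + s * k * n + 1) ∧
      ∀ (b : Bool) (f : MvPolynomial (Fin n) K), Cls u k l D s b f → f ≠ 0 →
        ∃ x ∈ H u k l D s {p}, MvPolynomial.eval (fun i => ((x i : ℕ) : K)) f ≠ 0) ∧
    (∀ g h : MvPolynomial (Fin n) K, (∀ α, 0 ≤ g.coeff α) → h.support.card ≤ k →
      (∀ α ∈ (g - h).support, ∀ i, α i ≤ D) → Cls u k l D 1 false (g - h)) ∧
    (∀ (N : ℕ) (m f : ℕ → MvPolynomial (Fin n) K) (e : ℕ → ℕ) (b : ℕ → Bool),
      (∀ j < N, ∀ x : Fin n → K, (∀ i, 0 < x i) → 0 < MvPolynomial.eval x (m j)) →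
      (∀ j < N, Cls u k l D s (b j) (f j)) →
      Cls u k l D s true (∑ j ∈ Finset.range N, m j * f j ^ (2 * e j))) := by
  refine ⟨fun P c h1 h2 h3 b f hf hf0 => hit u k l D s P c h1 h2 h3 b f hf hf0,
    fun P => H_card u k l D s P, fun P x hx => H_bound u k l D s P x hx, ?_, ?_, ?_⟩
  · obtain ⟨p, hp, h1, h2⟩ := Nat.exists_prime_lt_and_le_two_mul (D + s * k * n + 1) (by omega)
    refine ⟨p, hp, by omega, h2, ?_⟩
    intro b f hf hf0
    apply hit u k l D s {p} 0 ?_ ?_ ?_ b f hf hf0
    · intro q hq
      rw [Finset.mem_singleton] at hq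
      subst hq
      exact ⟨hp, by omega⟩
    · intro m hm hmD
      rw [Nat.le_zero, Finset.card_eq_zero, Finset.filter_eq_empty_iff]
      intro q hq hqm
      rw [Finset.mem_singleton] at hq
      subst hq
      have := Nat.le_of_dvd hm hqm
      omega
    · simp
  · intro g h hg hh hD
    apply Cls.leaf
    refine ⟨hD, fun _ => true, ∅, h.support, by simp, hh, fun j hj => absurd rfl hj, ?_⟩
    intro α hα hαh
    refine ⟨fun _ => ?_, fun hc => by simp at hc⟩
    rw [MvPolynomial.mem_support_iff] at hα
    have h0 : h.coeff α = 0 := by
      by_contra hcon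
      exact hαh (MvPolynomial.mem_support_iff.2 hcon)
    rw [MvPolynomial.coeff_sub, h0, sub_zero] at hα ⊢
    exact lt_of_le_of_ne (hg α) (Ne.symm hα)
  · intro N m f e b hm hf
    apply Cls.sum
    intro j hj
    rw [Finset.mem_range] at hj
    have h1 := Cls.mul (Cls.pos (u := u) (k := k) (l := l) (D := D) (hm j hj))
      (Cls.evenPow (e j) (hf j hj))
    rwa [zero_add, Bool.true_and] at h1

end Pool.Agent.Results.MP_e2be99_lc.FewNegativeCoefficients
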