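import Pool.Agent.H800R3.VF2

/-!
# Identity testing along polynomial vector fields

If a polynomial `f` divides its derivatives along some polynomial vector fields whose values at a
point `p`, together with the coordinate directions in `J`, span all directions, then `f` is zero as
soon as it vanishes at `∏ j ∈ J, (deg_j f + 1)` explicit points through `p`.  The same holds for
families of polynomials whose ideal is stable under the vector fields, and the reduction can be
repeated on the slice, with new vector fields, as often as one likes (towers of slices).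
-/

set_option autoImplicit false

namespace Pool.Agent.Results.MP_e2be99_lc.VectorFieldSlices

open MvPolynomial

/-- the derivative of `f` along the polynomial vector field `∑ i, v i ∂/∂x_i` -/
noncomputable def along {F σ : Type*} [Field F] [Fintype σ] (v : σ → MvPolynomial σ F)
    (f : MvPolynomial σ F) : MvPolynomial σ F :=
  ∑ i, v i * pderiv i f

/-- the span of the values at `p` of the vector fields in `V` -/
def values {F σ : Type*} [Field F] (V : Set (σ → MvPolynomial σ F)) (p : σ → F) :
    Submodule F (σ → F) :=
  Submodule.span F ((fun v i => eval p (v i)) '' V)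

/-- the span of the coordinate directions in `J` -/
def coords {σ : Type*} [DecidableEq σ] (F : Type*) [Field F] (J : Finset σ) :
    Submodule F (σ → F) :=
  Submodule.span F ((fun j => Pi.single j (1 : F)) '' (J : Set σ))

/-- the point with coordinates `y i` for `i ∈ J` and `p i` for `i ∉ J` -/
def glue {F σ : Type*} [DecidableEq σ] (p : σ → F) (J : Finset σ) (y : σ → F) : σ → F :=
  fun i => if i ∈ J then y i else p i

/-- substitute `p i` for all the variables `X i` with `i ∉ J` -/
noncomputable def restrict {F σ : Type*} [Field F] [DecidableEq σ] (p : σ → F) (J : Finset σ)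
    (f : MvPolynomial σ F) : MvPolynomial σ F :=
  aeval (fun i => if i ∈ J then (X i : MvPolynomial σ F) else C (p i)) f

/-- the ideal generated by the family is stable under the vector fields in `V` -/
def Stable {F σ κ : Type*} [Field F] [Fintype σ] (V : Set (σ → MvPolynomial σ F))
    (f : κ → MvPolynomial σ F) : Prop :=
  ∀ v ∈ V, ∀ k, along v (f k) ∈ Ideal.span (Set.range f)

/-- Towers of slices for the family `f`: `Tower f J p` says that one can reach the coordinate
subspace of the points which agree with `p` outside `J` from the whole space by steps as follows: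
if the restrictions of the `f k` to the last subspace (given by `J` and `q`) form a stable family
for vector fields `V`, and `p` is a point of this subspace at which the values of the fields and
the coordinate directions in `J' ∪ Jᶜ` span everything, pass from `J`, `q` to `J'`, `p`. -/
inductive Tower {F σ κ : Type*} [Field F] [Fintype σ] [DecidableEq σ]
    (f : κ → MvPolynomial σ F) : Finset σ → (σ → F) → Prop
  | start (p : σ → F) : Tower f Finset.univ p
  | step (J J' : Finset σ) (q p : σ → F) (V : Set (σ → MvPolynomial σ F)) :
      Tower f J q → J' ⊆ J → (∀ i, i ∉ J → p i = q i) →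
      Stable V (fun k => restrict q J (f k)) →
      values V p ⊔ coords F (J' ∪ Jᶜ) = ⊤ → Tower f J' p

section proofs

variable {F σ κ : Type*} [Field F] [Fintype σ] [DecidableEq σ]

open Pool.Agent.H800R3

omit [Fintype σ] in
theorem span_eq (V : Set (σ → MvPolynomial σ F)) (p : σ → F) (J : Finset σ)
    (h : values V p ⊔ coords F J = ⊤) :
    Submodule.span F ((Set.range fun (s : V) i => eval p (s.1 i)) ∪
      (fun j => Pi.single j (1 : F)) '' (J : Set σ)) = ⊤ := by
  rw [Submodule.span_union, ← h]
  congr 2
  ext x
  constructor
  · rintro ⟨s, rfl⟩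
    exact ⟨s.1, s.2, rfl⟩
  · rintro ⟨v, hv, rfl⟩
    exact ⟨⟨v, hv⟩, rfl⟩

theorem one_step [CharZero F] (V : Set (σ → MvPolynomial σ F)) (p : σ → F) (J : Finset σ)
    (f : κ → MvPolynomial σ F) (hf : Stable V f) (h : values V p ⊔ coords F J = ⊤)
    (hne : ∃ k, f k ≠ 0) : ∃ k, ∃ y : σ → F, eval (glue p J y) (f k) ≠ 0 := by
  by_contra hcon
  push Not at hcon
  obtain ⟨k, hk⟩ := hne
  exact hk (VF.slice_family (fun s : V => s.1) f (fun s k => hf s.1 s.2 k) p J
    (span_eq V p J h) (fun k y => hcon k y) k)

theorem tower_aux [CharZero F] (f : κ → MvPolynomial σ F) (J : Finset σ) (p : σ → F)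
    (h : Tower f J p) (hne : ∃ k, f k ≠ 0) : ∃ k, ∃ y : σ → F, eval (glue p J y) (f k) ≠ 0 := by
  induction h with
  | start p =>
    obtain ⟨k, hk⟩ := hne
    by_contra hcon
    push Not at hcon
    apply hk
    apply MvPolynomial.funext
    intro x
    rw [map_zero, ← hcon k x]
    congr 1
    congr 1
    funext i
    simp [glue]
  | step J J' q p V _ hJ hq hV ht ih =>
    obtain ⟨k, y, hy⟩ := ih
    have h1 : ∃ k, restrict q J (f k) ≠ 0 := by
      refine ⟨k, fun h0 => hy ?_⟩
      have := VF.eval_restrict q J y (f k)
      have h2 : VF.restrict q J (f k) = 0 := h0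
      rw [h2, map_zero] at this
      exact this.symm
    obtain ⟨k, y, hy⟩ := one_step V p (J' ∪ Jᶜ) _ hV ht h1
    refine ⟨k, y, ?_⟩
    have h3 := VF.eval_restrict q J (glue p (J' ∪ Jᶜ) y) (f k)
    have h4 : VF.glue q J (glue p (J' ∪ Jᶜ) y) = glue p J' y := by
      funext i
      by_cases hi : i ∈ J
      · simp [VF.glue, glue, hi]
      · have hi' : i ∉ J' := fun h => hi (hJ h)
        simp [VF.glue, glue, hi, hi', hq i hi]
    rw [h4] at h3
    rw [← h3]
    exact hy

theorem exists_tower [CharZero F] (f : κ → MvPolynomial σ F) (J : Finset σ) (q : σ → F)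
    (h : Tower f J q) (V : Set (σ → MvPolynomial σ F)) (p : σ → F)
    (hq : ∀ i, i ∉ J → p i = q i) (hV : Stable V fun k => restrict q J (f k)) :
    ∃ J' : Finset σ, J' ⊆ J ∧
      J'.card + Module.finrank F (values V p ⊔ coords F Jᶜ : Submodule F (σ → F)) =
        Fintype.card σ ∧ Tower f J' p := by
  obtain ⟨J', h1, h2, h3⟩ := VF.exists_compl (values V p ⊔ coords F Jᶜ)
  have h4 : J' ⊆ J := by
    intro j hj
    by_contra hjJ
    refine h3 j hj (Submodule.mem_sup_right (Submodule.subset_span ⟨j, ?_, rfl⟩))
    simpa using hjJ
  refine ⟨J', h4, h1, Tower.step J J' q p V h h4 hq hV ?_⟩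
  rw [← h2, sup_assoc]
  congr 1
  rw [coords, coords, ← Submodule.span_union, ← Set.image_union]
  congr 2
  rw [Finset.coe_union, Set.union_comm]

end proofs

/-- **Identity testing along vector fields.** Let `F` be a field of characteristic zero and `f` a
family of polynomials.
(1) If a tower of slices for `f` ends with `J` and `p`, then some `f k` is nonzero if and only if
some `f k` is nonzero at a point which agrees with `p` outside `J` and whose coordinates `y j`,
`j ∈ J`, are natural numbers with `y j ≤ deg_j (f k)`.
(2) Every stable family of vector fields on the last subspace of a tower, and every point of the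
subspace, give a new step, with as many free variables as the codimension of the values of the
fields in the subspace. -/
theorem result {F σ κ : Type*} [Field F] [CharZero F] [Fintype σ] [DecidableEq σ]
    (f : κ → MvPolynomial σ F) :
    (∀ (J : Finset σ) (p : σ → F), Tower f J p →
      ((∃ k, f k ≠ 0) ↔ ∃ k, ∃ y : σ → ℕ, (∀ j, y j ≤ (f k).degreeOf j) ∧
        eval (glue p J fun j => (y j : F)) (f k) ≠ 0)) ∧
    (∀ (J : Finset σ) (q : σ → F), Tower f J q →
      ∀ (V : Set (σ → MvPolynomial σ F)) (p : σ → F), (∀ i, i ∉ J → p i = q i) →
        Stable V (fun k => restrict q J (f k)) →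
        ∃ J' : Finset σ, J' ⊆ J ∧
          J'.card + Module.finrank F (values V p ⊔ coords F Jᶜ : Submodule F (σ → F)) =
            Fintype.card σ ∧ Tower f J' p) := by
  refine ⟨fun J p h => ⟨fun hne => ?_, ?_⟩,
    fun J q h V p hq hV => exists_tower f J q h V p hq hV⟩
  · obtain ⟨k, y, hy⟩ := tower_aux f J p h hne
    exact ⟨k, H800R3.VF.grid (f k) J p y hy⟩
  · rintro ⟨k, y, _, hy⟩
    refine ⟨k, fun h0 => hy ?_⟩
    rw [h0, map_zero]

end Pool.Agent.Results.MP_e2be99_lc.VectorFieldSlices
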